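import Pool.Agent.Helper13.JS.St
import Pool.Agent.Helper15.AB.M_OR
import Pool.Agent.Helper15.AB.M_NP

/-!
# Project JS (MP_924f75_nt): module B1, characters
-/

set_option autoImplicit false

namespace Pool.Agent.Helper57.JS

open Finset ArithmeticFunction Pool.Agent.Helper13.JS
open Pool.Agent.Helper15.AB (IsW Th SP SN)
open Pool.Agent.Helper60.GP (II)
open Pool.Agent.Helper2 (chFun prFun prFun_eq_chFun chFun_eq_zero_iff sum_noncoprime_le)

/-- the weight -/
private noncomputable def W (ω : ℝ → ℝ) (V : ℝ) (n : ℕ) : ℝ := Λ n * ω (Real.log (n / V))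

private noncomputable def cm (M : ℕ) (α : ℕ → ℝ) (f : ℕ → ℂ) : ℂ := ∑ m ∈ Icc 1 M, (α m : ℂ) * f m

private noncomputable def dn (ω : ℝ → ℝ) (V : ℝ) (f : ℕ → ℂ) : ℂ := ∑ n ∈ II V, (W ω V n : ℂ) * f n

private lemma key_B1 (ω : ℝ → ℝ) (V : ℝ) (M q : ℕ) [NeZero q] (α : ℕ → ℝ) (b : ℤ)
    (hu : IsUnit (b : ZMod q)) :
    ∑ χ : DirichletCharacter ℂ q, (starRingEnd ℂ) (χ (b : ZMod q)) *
      (cm M α (chFun χ) * dn ω V (chFun χ)) =
    ∑ m ∈ Icc 1 M, ∑ n ∈ II V, ((α m * W ω V n : ℝ) : ℂ) *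
      (if (q : ℤ) ∣ ((m * n : ℕ) : ℤ) - b then (Nat.totient q : ℂ) else 0) := by
  classical
  have h1 : ∀ χ : DirichletCharacter ℂ q, (starRingEnd ℂ) (χ (b : ZMod q)) *
      (cm M α (chFun χ) * dn ω V (chFun χ)) =
      ∑ m ∈ Icc 1 M, ∑ n ∈ II V, ((α m * W ω V n : ℝ) : ℂ) *
        (χ (b : ZMod q)⁻¹ * χ ((m * n : ℕ) : ZMod q)) := by
    intro χ
    rw [Pool.Agent.Helper15.AB.OR.conj_char χ hu, cm, dn, sum_mul_sum, mul_sum]
    refine sum_congr rfl fun m _ => ?_
    rw [mul_sum]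
    refine sum_congr rfl fun n _ => ?_
    have : χ ((m * n : ℕ) : ZMod q) = chFun χ m * chFun χ n := by
      simp [chFun]
    rw [this]
    push_cast
    ring
  rw [sum_congr rfl fun χ _ => h1 χ, sum_comm]
  refine sum_congr rfl fun m _ => ?_
  rw [sum_comm]
  refine sum_congr rfl fun n _ => ?_
  rw [← mul_sum, DirichletCharacter.sum_char_inv_mul_char_eq ℂ hu]
  congr 1
  have e : ((b : ZMod q) = ((m * n : ℕ) : ZMod q)) ↔ (q : ℤ) ∣ ((m * n : ℕ) : ℤ) - b := by
    rw [← ZMod.intCast_eq_intCast_iff_dvd_sub, Int.cast_natCast]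
  by_cases h : (q : ℤ) ∣ ((m * n : ℕ) : ℤ) - b
  · rw [if_pos h, if_pos (e.2 h)]
  · rw [if_neg h, if_neg (fun h' => h (e.1 h'))]

private lemma one_apply_B1 (q : ℕ) [NeZero q] (n : ℕ) :
    chFun (1 : DirichletCharacter ℂ q) n = if n.Coprime q then 1 else 0 := by
  split_ifs with h
  · have hu : IsUnit (n : ZMod q) := (ZMod.isUnit_iff_coprime n q).mpr h
    unfold chFun
    exact MulChar.one_apply hu
  · exact (chFun_eq_zero_iff _ n).2 h

private lemma sum_coprime_B1 {q : ℕ} [NeZero q] (χ : DirichletCharacter ℂ q) (s : Finset ℕ)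
    (c : ℕ → ℂ) : ∑ m ∈ s, c m * chFun χ m =
      ∑ m ∈ s.filter (fun m => Nat.Coprime m q), c m * prFun χ m := by
  rw [sum_filter]
  refine sum_congr rfl fun m _ => ?_
  split_ifs with h
  · rw [prFun_eq_chFun χ m h]
  · rw [(chFun_eq_zero_iff χ m).2 h, mul_zero]

private lemma Gk_B1 (ω : ℝ → ℝ) (V : ℝ) (M q : ℕ) [NeZero q] (α : ℕ → ℝ)
    (χ : DirichletCharacter ℂ q) :
    ‖cm M α (chFun χ) * dn ω V (chFun χ)‖ = Gk ω V M α q (prFun χ) := by
  rw [norm_mul, cm, dn, sum_coprime_B1, sum_coprime_B1]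
  rfl

/-- Module B1. -/
theorem hB1 : StB1 := by
  classical
  intro ω hω
  refine ⟨3, by norm_num, ?_⟩
  intro V M q α b hV hq hα hb
  haveI : NeZero q := ⟨by omega⟩
  have hV0 : (0 : ℝ) < V := by linarith
  have hφ0 : (0 : ℝ) < Nat.totient q := by exact_mod_cast Nat.totient_pos.2 hq
  have hφ : (Nat.totient q : ℂ) ≠ 0 := by exact_mod_cast hφ0.ne'
  have hu : IsUnit (b : ZMod q) := by
    obtain ⟨u, v, huv⟩ := hb
    apply IsUnit.of_mul_eq_one_right (u : ZMod q)
    have := congrArg (Int.cast : ℤ → ZMod q) huv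
    push_cast at this
    rw [ZMod.natCast_self, mul_zero, add_zero] at this
    exact this
  set A : ℝ := ∑ m ∈ (Icc 1 M).filter (fun m => Nat.Coprime m q), α m with hA
  set B : ℝ := ∑ n ∈ (II V).filter (fun n => Nat.Coprime n q), W ω V n with hB
  set S : ℝ := ∑ m ∈ Icc 1 M, ∑ n ∈ (II V).filter
    (fun n : ℕ => (q : ℤ) ∣ ((m * n : ℕ) : ℤ) - b), α m * W ω V n with hS
  have hTh : Th ω V = ∑ n ∈ II V, W ω V n := rfl
  -- the main identity
  have hkey := key_B1 ω V M q α b hu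
  have hSc : (S : ℂ) = 1 / (Nat.totient q : ℂ) * ∑ χ : DirichletCharacter ℂ q,
      (starRingEnd ℂ) (χ (b : ZMod q)) * (cm M α (chFun χ) * dn ω V (chFun χ)) := by
    rw [hkey, hS, mul_sum]
    push_cast
    refine sum_congr rfl fun m _ => ?_
    rw [sum_filter, mul_sum]
    refine sum_congr rfl fun n _ => ?_
    split_ifs
    · field_simp
    · simp
  have hsplit : ∑ χ : DirichletCharacter ℂ q,
      (starRingEnd ℂ) (χ (b : ZMod q)) * (cm M α (chFun χ) * dn ω V (chFun χ)) =
      (A : ℂ) * B + ∑ χ ∈ (univ : Finset (DirichletCharacter ℂ q)).filter (fun χ => χ ≠ 1),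
      (starRingEnd ℂ) (χ (b : ZMod q)) * (cm M α (chFun χ) * dn ω V (chFun χ)) := by
    rw [← Finset.sum_filter_add_sum_filter_not univ (fun χ : DirichletCharacter ℂ q => χ = 1)]
    congr 1
    have e1 : (univ : Finset (DirichletCharacter ℂ q)).filter (fun χ => χ = 1) = {1} := by
      ext χ; simp
    rw [e1, sum_singleton, MulChar.one_apply hu, map_one, one_mul]
    congr 1
    · rw [cm, hA]
      push_cast
      rw [sum_filter]
      refine sum_congr rfl fun m _ => ?_
      rw [one_apply_B1]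
      split_ifs <;> simp
    · rw [dn, hB]
      push_cast
      rw [sum_filter]
      refine sum_congr rfl fun m _ => ?_
      rw [one_apply_B1]
      split_ifs <;> simp
  have hX : ‖∑ χ ∈ (univ : Finset (DirichletCharacter ℂ q)).filter (fun χ => χ ≠ 1),
      (starRingEnd ℂ) (χ (b : ZMod q)) * (cm M α (chFun χ) * dn ω V (chFun χ))‖ ≤
      SN (Gk ω V M α q) q := by
    refine (norm_sum_le _ _).trans ?_
    rw [SN, dif_neg (by omega)]
    have h1 : ∑ χ ∈ (univ : Finset (DirichletCharacter ℂ q)).filter (fun χ => χ ≠ 1),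
        ‖(starRingEnd ℂ) (χ (b : ZMod q)) * (cm M α (chFun χ) * dn ω V (chFun χ))‖ ≤
        ∑ χ ∈ (univ : Finset (DirichletCharacter ℂ q)).filter (fun χ => χ ≠ 1),
        Gk ω V M α q (prFun χ) := by
      refine sum_le_sum fun χ _ => ?_
      rw [norm_mul, Gk_B1, RCLike.norm_conj]
      have h2 : ‖χ (b : ZMod q)‖ ≤ 1 := χ.norm_le_one _
      have h3 : 0 ≤ Gk ω V M α q (prFun χ) := by
        unfold Gk
        positivity
      nlinarith
    refine h1.trans (le_of_eq ?_)
    refine sum_congr ?_ fun χ _ => rfl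
    ext χ
    simp
  -- the principal part
  have hBT : Th ω V - B = ∑ n ∈ (II V).filter (fun n => ¬ Nat.Coprime n q), W ω V n := by
    rw [hTh, hB, ← Finset.sum_filter_add_sum_filter_not (II V) (fun n => Nat.Coprime n q)]
    ring
  have hW0 : ∀ n, 0 ≤ W ω V n := fun n => mul_nonneg vonMangoldt_nonneg (hω.nonneg _)
  have hW1 : ∀ n, W ω V n ≤ Λ n := fun n => by
    have := mul_le_mul_of_nonneg_left (hω.le_one (Real.log (n / V)))
      (vonMangoldt_nonneg (n := n))
    rw [mul_one] at this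
    exact this
  have hBT0 : 0 ≤ Th ω V - B := by
    rw [hBT]; exact sum_nonneg fun n _ => hW0 n
  have hBT1 : Th ω V - B ≤ 3 * Real.log V * Real.log (2 * q) := by
    have h2 : Th ω V - B ≤ ∑ n ∈ (Ioc 0 ⌊3 * V⌋₊).filter (fun n => ¬ n.Coprime q),
        vonMangoldt n := by
      rw [hBT]
      have e : II V = Ioc 0 ⌊3 * V⌋₊ := by
        unfold Pool.Agent.Helper60.GP.II
        ext n
        simp only [mem_Icc, mem_Ioc]
        omega
      rw [e]
      exact sum_le_sum fun n _ => hW1 n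
    refine h2.trans ((sum_noncoprime_le ⌊3 * V⌋₊ q (by omega)).trans ?_)
    have hlog2' : (0.69 : ℝ) < Real.log 2 := by
      have := Real.log_two_gt_d9
      linarith
    have hc := Pool.Agent.Helper15.AB.NP.card_primeFactors_le (q := q) (by omega)
    have hq1 : (1 : ℝ) ≤ q := by exact_mod_cast hq
    have hlq : Real.log q ≤ Real.log (2 * q) := Real.log_le_log (by linarith) (by linarith)
    have hl2q : 0 ≤ Real.log (2 * q) := Real.log_nonneg (by linarith)
    have hlV : 0 < Real.log V := Real.log_pos (by linarith)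
    have hl3 : Real.log ⌊3 * V⌋₊ ≤ 2 * Real.log V := by
      have h3 : (1 : ℝ) ≤ ⌊3 * V⌋₊ := by
        have : 1 ≤ ⌊3 * V⌋₊ := by
          rw [Nat.one_le_floor_iff]
          linarith
        exact_mod_cast this
      calc Real.log ⌊3 * V⌋₊ ≤ Real.log (3 * V) :=
            Real.log_le_log (by linarith) (Nat.floor_le (by linarith))
        _ = Real.log 3 + Real.log V := Real.log_mul (by norm_num) hV0.ne'
        _ ≤ Real.log V + Real.log V := by
            gcongr
        _ = _ := by ring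
    have hcard : (#q.primeFactors : ℝ) ≤ Real.log (2 * q) / 0.69 := by
      rw [le_div_iff₀ (by norm_num)]
      calc (#q.primeFactors : ℝ) * 0.69 ≤ (#q.primeFactors : ℝ) * Real.log 2 := by gcongr
        _ ≤ Real.log (2 * q) := hc.trans hlq
    calc (#q.primeFactors : ℝ) * Real.log ⌊3 * V⌋₊ ≤
          (Real.log (2 * q) / 0.69) * (2 * Real.log V) := by
          gcongr
      _ = (2 / 0.69) * (Real.log V * Real.log (2 * q)) := by ring
      _ ≤ 3 * (Real.log V * Real.log (2 * q)) := by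
          apply mul_le_mul_of_nonneg_right _ (by positivity)
          norm_num
      _ = _ := by ring
  have hAM : |A| ≤ M := by
    rw [hA]
    refine (abs_sum_le_sum_abs _ _).trans ?_
    calc ∑ m ∈ (Icc 1 M).filter (fun m => Nat.Coprime m q), |α m|
        ≤ ∑ m ∈ (Icc 1 M).filter (fun m => Nat.Coprime m q), (1 : ℝ) :=
          sum_le_sum fun m _ => hα m
      _ = (((Icc 1 M).filter (fun m => Nat.Coprime m q)).card : ℝ) := by simp
      _ ≤ ((Icc 1 M).card : ℝ) := by exact_mod_cast card_filter_le _ _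
      _ = M := by simp
  -- conclusion
  have hEr : Er ω V M α q b = |S - Th ω V / (Nat.totient q : ℝ) * A| := by
    unfold Er
    congr 2
  rw [hEr, ← Real.norm_eq_abs, ← Complex.norm_real]
  have hfin : ((S - Th ω V / (Nat.totient q : ℝ) * A : ℝ) : ℂ) =
      1 / (Nat.totient q : ℂ) * (∑ χ ∈ (univ : Finset (DirichletCharacter ℂ q)).filter
        (fun χ => χ ≠ 1), (starRingEnd ℂ) (χ (b : ZMod q)) *
          (cm M α (chFun χ) * dn ω V (chFun χ)) - ((A * (Th ω V - B) : ℝ) : ℂ)) := by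
    push_cast
    rw [hSc, hsplit]
    field_simp
    ring
  rw [hfin, norm_mul]
  have hn : ‖(1 / (Nat.totient q : ℂ))‖ = 1 / (Nat.totient q : ℝ) := by
    rw [norm_div, norm_one, Complex.norm_natCast]
  rw [hn]
  refine mul_le_mul_of_nonneg_left ?_ (by positivity)
  refine (norm_sub_le _ _).trans (add_le_add hX ?_)
  rw [Complex.norm_real, Real.norm_eq_abs, abs_mul, abs_of_nonneg hBT0]
  calc |A| * (Th ω V - B) ≤ M * (3 * Real.log V * Real.log (2 * q)) :=
        mul_le_mul hAM hBT1 hBT0 (Nat.cast_nonneg M)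
    _ = _ := by ring

end Pool.Agent.Helper57.JS
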